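import Pool.Agent.Y289.HI.All3

set_option autoImplicit false

/-!
# One sided comparison of the eigenvalues with those of an extremal polygon
-/

namespace Pool.Agent.R225.HT

open MeasureTheory Set Filter Topology Complex
open Pool.Agent.W780.PG (IsConvexPolygon region ang lft)
open Pool.Agent.W703.GP (ev Isospectral dir region_facts)
open Pool.Agent.Y289.SQ (Z area per)
open Pool.Agent.Y289.HI
open scoped Real ComplexConjugate

/-- the congruence from the inequalities between the heat invariants -/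
theorem circ_core (n m : ℕ) (p : Fin (n + 3) → ℂ) (hp : IsConvexPolygon p) (hc : Circ p)
    (k : Fin (n + 3)) (α : ℝ) (h1 : ∀ j, j ≠ k → ang p j = α) (h2 : α ≤ ang p k)
    (q : Fin (m + 3) → ℂ) (hq : IsConvexPolygon q)
    (hA : area (region p) = area (region q)) (hL : per p = per q)
    (hU : ∑ j, (π - ang p j) / (π - (π - ang p j)) ≤
      ∑ j, (π - ang q j) / (π - (π - ang q j))) :
    ∃ φ : ℂ ≃ᵢ ℂ, φ '' region p = region q := by
  have hπ := Real.pi_pos
  obtain ⟨hp1, hp2⟩ := h_AN n p hp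
  obtain ⟨hq1, hq2⟩ := h_AN m q hq
  have hApos : 0 < area (region p) :=
    area_pos (region_facts hp).1 (region_facts hp).2.2.1 (region_facts hp).2.2.2.1
  have hTCp := h_TC n p hp hc
  have hLHq := h_LH m q hq
  obtain ⟨j₀, hj₀⟩ : ∃ j : Fin (n + 3), j ≠ k := exists_ne k
  have hα0 : 0 < α := by rw [← h1 j₀ hj₀]; exact (hp1 j₀).1
  have hα1 : α < π := by rw [← h1 j₀ hj₀]; exact (hp1 j₀).2
  have split : ∀ f : ℝ → ℝ, ∑ j, f (π - ang p j) = (n + 2) * f (π - α) + f (π - ang p k) := by
    intro f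
    rw [← Finset.add_sum_erase _ _ (Finset.mem_univ k), add_comm]
    congr 1
    rw [Finset.sum_congr rfl (g := fun _ => f (π - α)) fun j hj => by
      rw [h1 j (Finset.ne_of_mem_erase hj)]]
    rw [Finset.sum_const, Finset.card_erase_of_mem (Finset.mem_univ k), Finset.card_univ,
      Fintype.card_fin, nsmul_eq_mul]
    congr 1
    push_cast [Nat.add_sub_cancel]
    norm_num
  have hsum : ((n : ℝ) + 2) * (π - α) + (π - ang p k) = 2 * π := by
    rw [← hp2]; exact (split fun x => x).symm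
  have hTp := split fun x => Real.tan (x / 2)
  have hUp := split fun x => x / (π - x)
  have hT : ∑ j, Real.tan ((π - ang q j) / 2) ≤
      (n + 2) * Real.tan ((π - α) / 2) + Real.tan ((π - ang p k) / 2) := by
    rw [← hTp]
    rw [← hA, ← hL, hTCp] at hLHq
    exact le_of_mul_le_mul_left hLHq (by positivity)
  obtain ⟨hmn, ⟨k', hk', hk''⟩, hTeq⟩ := h_EV n m (π - α) (π - ang p k) (fun j => π - ang q j)
    (by linarith [(hp1 k).2]) (by linarith) (by linarith) hsum
    (fun j => ⟨by linarith [(hq1 j).2], by linarith [(hq1 j).1]⟩) hq2 hT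
    (by rw [← hUp]; exact hU)
  subst hmn
  have hqk' : ang q k' = ang p k := by linarith
  have hqk'' : ∀ j, j ≠ k' → ang q j = α := fun j hj => by linarith [hk'' j hj]
  have hTT : ∑ j, Real.tan ((π - ang q j) / 2) = ∑ j, Real.tan ((π - ang p j) / 2) := by
    rw [hTp]; exact hTeq
  have hLEp := h_LE m p hp hTCp
  have hLEq := h_LE m q hq (by rw [← hA, ← hL, hTT]; exact hTCp)
  have hangs : ∀ i, ang q (i + (k' - k)) = ang p i := by
    intro i
    by_cases hi : i = k
    · subst hi
      rw [add_sub_cancel]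
      exact hqk'
    · rw [h1 i hi]
      refine hqk'' _ fun h => hi ?_
      have : i + (k' - k) - (k' - k) = k' - (k' - k) := by rw [h]
      rwa [add_sub_cancel_right, sub_sub_cancel] at this
  refine h_CO m p q (k' - k) hp hq (fun i => ?_) hangs
  rw [hLEp i, hLEq, hTT, ← hL, hangs i]
  have : i + (k' - k) + 1 = (i + 1) + (k' - k) := add_right_comm i (k' - k) 1
  rw [this, hangs (i + 1)]

/-- a function with a heat expansion whose upper limit is at most zero, and whose lower limit is
at least zero after multiplication by the square root of the time -/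
theorem exp_onesided {z : ℝ → ℝ} {a l c : ℝ}
    (h : Tendsto (fun t : ℝ => z t - a / (4 * π * t) + l / (8 * √(π * t))) (𝓝[>] 0) (𝓝 c))
    (h1 : ∀ ε : ℝ, 0 < ε → ∀ᶠ t in 𝓝[>] (0:ℝ), z t ≤ ε)
    (h2 : ∀ ε : ℝ, 0 < ε → ∀ᶠ t in 𝓝[>] (0:ℝ), -ε ≤ √t * z t) : a = 0 ∧ l = 0 ∧ c ≤ 0 := by
  have hπ := Real.pi_pos
  have hsp : 0 < √π := Real.sqrt_pos.2 hπ
  have ht0 : Tendsto (fun t : ℝ => t) (𝓝[>] 0) (𝓝 0) :=
    tendsto_id.mono_left nhdsWithin_le_nhds
  have hs0 : Tendsto (fun t : ℝ => √t) (𝓝[>] 0) (𝓝 0) := by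
    have : Tendsto (fun t : ℝ => √t) (𝓝 0) (𝓝 (√0)) := Real.continuous_sqrt.tendsto 0
    rw [Real.sqrt_zero] at this
    exact this.mono_left nhdsWithin_le_nhds
  have ha1 : Tendsto (fun t : ℝ => t * z t) (𝓝[>] 0) (𝓝 (a / (4 * π))) := by
    have e1 : Tendsto (fun t : ℝ => t * (z t - a / (4 * π * t) + l / (8 * √(π * t))) +
        a / (4 * π) - l / (8 * √π) * √t) (𝓝[>] 0)
        (𝓝 (0 * c + a / (4 * π) - l / (8 * √π) * 0)) :=
      ((ht0.mul h).add tendsto_const_nhds).sub (tendsto_const_nhds.mul hs0)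
    have e2 : 0 * c + a / (4 * π) - l / (8 * √π) * 0 = a / (4 * π) := by ring
    rw [e2] at e1
    refine e1.congr' ?_
    filter_upwards [self_mem_nhdsWithin] with t ht
    have ht' : (0:ℝ) < t := ht
    have hst : 0 < √t := Real.sqrt_pos.2 ht'
    rw [Real.sqrt_mul hπ.le]
    have e1 : t * (a / (4 * π * t)) = a / (4 * π) := by field_simp
    have e2 : t * (l / (8 * (√π * √t))) = l / (8 * √π) * √t := by
      rw [← mul_div_assoc, div_eq_iff (by positivity)]
      have : l / (8 * √π) * √t * (8 * (√π * √t)) = l * (√t * √t) := by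
        field_simp
      rw [this, Real.mul_self_sqrt ht'.le]
      ring
    calc t * (z t - a / (4 * π * t) + l / (8 * (√π * √t))) + a / (4 * π) - l / (8 * √π) * √t
        = t * z t - t * (a / (4 * π * t)) + t * (l / (8 * (√π * √t))) + a / (4 * π) -
          l / (8 * √π) * √t := by ring
      _ = t * z t := by rw [e1, e2]; ring
  have ha : a = 0 := by
    have hle : a / (4 * π) ≤ 0 := by
      refine le_of_tendsto_of_tendsto ha1 ht0 ?_
      filter_upwards [h1 1 one_pos, self_mem_nhdsWithin] with t h3 ht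
      have ht' : (0:ℝ) < t := ht
      nlinarith
    have hge : 0 ≤ a / (4 * π) := by
      have e3 : Tendsto (fun t : ℝ => -√t) (𝓝[>] 0) (𝓝 (-0)) := hs0.neg
      rw [neg_zero] at e3
      refine le_of_tendsto_of_tendsto e3 ha1 ?_
      filter_upwards [h2 1 one_pos, self_mem_nhdsWithin] with t h3 ht
      have ht' : (0:ℝ) < t := ht
      have hst : 0 < √t := Real.sqrt_pos.2 ht'
      have e4 : t * z t = √t * (√t * z t) := by
        rw [← mul_assoc, Real.mul_self_sqrt ht'.le]
      rw [e4]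
      nlinarith
    have : a / (4 * π) = 0 := le_antisymm hle hge
    rcases div_eq_zero_iff.1 this with h | h
    · exact h
    · exact absurd h (by positivity)
  subst ha
  have hl1 : Tendsto (fun t : ℝ => √t * z t) (𝓝[>] 0) (𝓝 (-(l / (8 * √π)))) := by
    have e1 : Tendsto (fun t : ℝ => √t * (z t - 0 / (4 * π * t) + l / (8 * √(π * t))) -
        l / (8 * √π)) (𝓝[>] 0) (𝓝 (0 * c - l / (8 * √π))) :=
      (hs0.mul h).sub tendsto_const_nhds
    have e2 : 0 * c - l / (8 * √π) = -(l / (8 * √π)) := by ring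
    rw [e2] at e1
    refine e1.congr' ?_
    filter_upwards [self_mem_nhdsWithin] with t ht
    have ht' : (0:ℝ) < t := ht
    have hst : 0 < √t := Real.sqrt_pos.2 ht'
    rw [Real.sqrt_mul hπ.le]
    have e1 : √t * (l / (8 * (√π * √t))) = l / (8 * √π) := by field_simp
    rw [zero_div, sub_zero, mul_add, e1]
    ring
  have hl : l = 0 := by
    have hle : -(l / (8 * √π)) ≤ 0 := by
      refine le_of_tendsto_of_tendsto hl1 hs0 ?_
      filter_upwards [h1 1 one_pos, self_mem_nhdsWithin] with t h3 ht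
      have ht' : (0:ℝ) < t := ht
      have hst : 0 < √t := Real.sqrt_pos.2 ht'
      nlinarith
    have hge : 0 ≤ -(l / (8 * √π)) := by
      refine le_of_forall_pos_sub_le fun ε hε => ?_
      rw [zero_sub]
      exact ge_of_tendsto hl1 (h2 ε hε)
    have : l / (8 * √π) = 0 := by linarith [le_antisymm hle hge]
    rcases div_eq_zero_iff.1 this with h | h
    · exact h
    · exact absurd h (by positivity)
  subst hl
  refine ⟨rfl, rfl, ?_⟩
  refine le_of_forall_pos_le_add fun ε hε => ?_
  rw [zero_add]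
  refine le_of_tendsto h ?_
  filter_upwards [h1 ε hε] with t ht
  simpa using ht

/-- comparison of two series of exponentials -/
theorem tail_le {x y w : ℕ → ℝ} (hx : ∀ j, 0 ≤ x j) (hw : ∀ j, 0 ≤ w j) {δ : ℝ} (hδ : 0 < δ)
    (h : ∀ᶠ j in atTop, y j ≤ x j + δ * w j) :
    ∃ K : ℝ, 0 ≤ K ∧ ∀ t : ℝ, 0 < t → Summable (fun j => Real.exp (-(t * x j))) →
      Summable (fun j => Real.exp (-(t * y j))) →
      Summable (fun j => w j * Real.exp (-(t * x j))) →
      (∑' j, Real.exp (-(t * x j))) - (∑' j, Real.exp (-(t * y j))) ≤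
        t * (δ * ∑' j, w j * Real.exp (-(t * x j))) + t * K := by
  obtain ⟨N, hN⟩ := eventually_atTop.1 h
  refine ⟨∑ j ∈ Finset.range N, |y j - x j|, Finset.sum_nonneg fun _ _ => abs_nonneg _, ?_⟩
  intro t ht sx sy sw
  have key : ∀ j, Real.exp (-(t * x j)) - Real.exp (-(t * y j)) ≤
      t * δ * (w j * Real.exp (-(t * x j))) +
        (if j ∈ Finset.range N then t * |y j - x j| else 0) := by
    intro j
    have e0 : 0 < Real.exp (-(t * x j)) := Real.exp_pos _
    have e1 : Real.exp (-(t * x j)) ≤ 1 := by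
      rw [Real.exp_le_one_iff]
      have := mul_nonneg ht.le (hx j)
      linarith
    have e2 : Real.exp (-(t * y j)) = Real.exp (-(t * x j)) * Real.exp (-(t * (y j - x j))) := by
      rw [← Real.exp_add]; ring_nf
    have e3 : 1 - t * (y j - x j) ≤ Real.exp (-(t * (y j - x j))) := by
      have := Real.add_one_le_exp (-(t * (y j - x j)))
      linarith
    have e4 : Real.exp (-(t * x j)) - Real.exp (-(t * y j)) ≤
        Real.exp (-(t * x j)) * (t * (y j - x j)) := by
      rw [e2]
      nlinarith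
    have e5 : 0 ≤ t * δ * (w j * Real.exp (-(t * x j))) := by
      have := hw j
      positivity
    by_cases hj : j ∈ Finset.range N
    · rw [if_pos hj]
      have e6 : Real.exp (-(t * x j)) * (t * (y j - x j)) ≤ 1 * (t * |y j - x j|) := by
        refine (mul_le_mul_of_nonneg_left (mul_le_mul_of_nonneg_left (le_abs_self _) ht.le)
          e0.le).trans ?_
        exact mul_le_mul_of_nonneg_right e1 (by positivity)
      linarith
    · rw [if_neg hj]
      have e6 : y j - x j ≤ δ * w j := by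
        have := hN j (by simpa using hj)
        linarith
      have e7 : Real.exp (-(t * x j)) * (t * (y j - x j)) ≤
          Real.exp (-(t * x j)) * (t * (δ * w j)) :=
        mul_le_mul_of_nonneg_left (mul_le_mul_of_nonneg_left e6 ht.le) e0.le
      have e8 : Real.exp (-(t * x j)) * (t * (δ * w j)) =
        t * δ * (w j * Real.exp (-(t * x j))) := by ring
      linarith
  have s2 : Summable (fun j => if j ∈ Finset.range N then t * |y j - x j| else 0) :=
    summable_of_ne_finset_zero (s := Finset.range N) fun j hj => if_neg hj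
  rw [← Summable.tsum_sub sx sy]
  refine ((sx.sub sy).tsum_le_tsum key ((sw.mul_left (t * δ)).add s2)).trans ?_
  rw [Summable.tsum_add (sw.mul_left (t * δ)) s2, tsum_mul_left,
    tsum_eq_sum (s := Finset.range N) fun j hj => if_neg hj,
    Finset.sum_congr rfl (g := fun j => t * |y j - x j|) fun j hj => if_pos hj,
    ← Finset.mul_sum]
  rw [mul_assoc]

theorem sqrt_mul_exp_le {x t : ℝ} (hx : 0 ≤ x) (ht : 0 < t) :
    √t * (√x * Real.exp (-(t * x))) ≤ Real.exp (-(t / 2 * x)) := by
  have h0 : 0 ≤ t * x := mul_nonneg ht.le hx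
  have h1 : √(t * x) ≤ Real.exp (t / 2 * x) := by
    have e1 : Real.exp (t / 2 * x) = √(Real.exp (t * x)) := by
      rw [← Real.sqrt_sq (Real.exp_pos (t / 2 * x)).le, ← Real.exp_nat_mul]
      congr 2
      push_cast
      ring
    rw [e1]
    refine Real.sqrt_le_sqrt ?_
    linarith [Real.add_one_le_exp (t * x)]
  rw [← mul_assoc, ← Real.sqrt_mul ht.le]
  calc √(t * x) * Real.exp (-(t * x)) ≤ Real.exp (t / 2 * x) * Real.exp (-(t * x)) :=
        mul_le_mul_of_nonneg_right h1 (Real.exp_pos _).le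
    _ = Real.exp (-(t / 2 * x)) := by
        rw [← Real.exp_add]
        congr 1
        ring

/-- the eigenvalues are positive and the heat trace converges -/
theorem ev_facts {Ω : Set ℂ} (hO : IsOpen Ω) (hb : Bornology.IsBounded Ω) (hn : Ω.Nonempty) :
    (∀ k : ℕ, 0 < ev Ω (k + 1)) ∧
      ∀ t : ℝ, 0 < t → Summable (fun k : ℕ => Real.exp (-(t * ev Ω (k + 1)))) := by
  have hPB := Pool.Agent.W108.GP.t_PB Pool.Agent.W973.GP.t_PG
  have hpos : ∀ k : ℕ, 0 < ev Ω (k + 1) := fun k =>
    (hPB Ω hO hb hn (k + 1) (by omega)).1.2.2.2.2.1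
  refine ⟨hpos, fun t ht => ?_⟩
  obtain ⟨-, h2⟩ := hPB Ω hO hb hn 1 le_rfl
  have h3 := h2 2 le_rfl
  refine Summable.of_nonneg_of_le (fun k => (Real.exp_pos _).le) (fun k => ?_)
    (h3.mul_left (2 / t ^ 2))
  have h4 : 0 < ev Ω (k + 1) := hpos k
  have h5 : 0 ≤ t * ev Ω (k + 1) := by positivity
  have h6 := Real.quadratic_le_exp_of_nonneg h5
  have h7 : (t * ev Ω (k + 1)) ^ 2 / 2 ≤ Real.exp (t * ev Ω (k + 1)) := by nlinarith
  rw [Real.exp_neg]
  have h8 : 0 < (t * ev Ω (k + 1)) ^ 2 / 2 := by positivity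
  calc (Real.exp (t * ev Ω (k + 1)))⁻¹ ≤ ((t * ev Ω (k + 1)) ^ 2 / 2)⁻¹ :=
        inv_anti₀ h8 h7
    _ = 2 / t ^ 2 * (ev Ω (k + 1))⁻¹ ^ 2 := by
        field_simp

/-- the heat trace of a convex polygon is `O(1/t)` -/
theorem Z_bound (hHE : S_HE) {n : ℕ} {p : Fin (n + 3) → ℂ} (hp : IsConvexPolygon p) :
    ∃ C : ℝ, 0 < C ∧ ∀ᶠ t in 𝓝[>] (0:ℝ), t * Z (region p) t ≤ C := by
  have hπ := Real.pi_pos
  have h := hHE n p hp
  set A := area (region p)
  set c := ∑ j, (π ^ 2 - ang p j ^ 2) / (24 * π * ang p j)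
  have hA : 0 ≤ A := ENNReal.toReal_nonneg
  have hL : 0 ≤ per p := Finset.sum_nonneg fun _ _ => norm_nonneg _
  refine ⟨A / (4 * π) + (|c| + 1), by positivity, ?_⟩
  have h1 : ∀ᶠ t in 𝓝[>] (0:ℝ), Z (region p) t - A / (4 * π * t) +
      per p / (8 * √(π * t)) < |c| + 1 :=
    h.eventually (gt_mem_nhds (by linarith [le_abs_self c]))
  have h2 : ∀ᶠ t in 𝓝[>] (0:ℝ), t < 1 := by
    filter_upwards [Ioo_mem_nhdsGT (show (0:ℝ) < 1 by norm_num)] with t ht using ht.2
  filter_upwards [h1, h2, self_mem_nhdsWithin] with t h3 h4 ht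
  have ht' : (0:ℝ) < t := ht
  have h5 : 0 ≤ per p / (8 * √(π * t)) := by positivity
  have h6 : Z (region p) t ≤ A / (4 * π * t) + (|c| + 1) := by linarith
  have h7 : t * (A / (4 * π * t)) = A / (4 * π) := by field_simp
  have h8 : 0 ≤ |c| + 1 := by positivity
  nlinarith [mul_le_mul_of_nonneg_left h6 ht'.le]

/-- circumscribed polygons with all angles equal but one, which is at least as large, are
determined among all convex polygons by one sided asymptotic bounds for the eigenvalues -/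
theorem one_sided (n m : ℕ) (p : Fin (n + 3) → ℂ) (hp : IsConvexPolygon p) (hc : Circ p)
    (k : Fin (n + 3)) (α : ℝ) (h1 : ∀ j, j ≠ k → ang p j = α) (h2 : α ≤ ang p k)
    (q : Fin (m + 3) → ℂ) (hq : IsConvexPolygon q)
    (hup : ∀ ε : ℝ, 0 < ε → ∀ᶠ j in atTop, ev (region q) j ≤ ev (region p) j + ε)
    (hlo : ∀ ε : ℝ, 0 < ε → ∀ᶠ j in atTop,
      ev (region p) j ≤ ev (region q) j + ε * √(ev (region q) j)) :
    ∃ φ : ℂ ≃ᵢ ℂ, φ '' region p = region q := by
  have hπ := Real.pi_pos
  have hfp := Pool.Agent.W703.GP.region_facts hp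
  have hfq := Pool.Agent.W703.GP.region_facts hq
  obtain ⟨pp, sp⟩ := ev_facts hfp.1 hfp.2.2.1 hfp.2.2.2.1
  obtain ⟨pq, sq⟩ := ev_facts hfq.1 hfq.2.2.1 hfq.2.2.2.1
  obtain ⟨Cp, hCp, hZp⟩ := Z_bound h_HE hp
  obtain ⟨Cq, hCq, hZq⟩ := Z_bound h_HE hq
  have hZq2 : ∀ᶠ t in 𝓝[>] (0:ℝ), t / 2 * Z (region q) (t / 2) ≤ Cq := by
    have : Tendsto (fun t : ℝ => t / 2) (𝓝[>] 0) (𝓝[>] 0) := by
      refine tendsto_nhdsWithin_iff.2 ⟨?_, ?_⟩
      · have h3 : Tendsto (fun t : ℝ => t / 2) (𝓝 0) (𝓝 (0 / 2)) :=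
          (continuous_id.div_const 2).tendsto 0
        rw [zero_div] at h3
        exact h3.mono_left nhdsWithin_le_nhds
      · filter_upwards [self_mem_nhdsWithin] with t ht
        exact half_pos (show (0:ℝ) < t from ht)
    exact this.eventually hZq
  have small : ∀ K δ : ℝ, 0 ≤ K → 0 < δ → ∀ᶠ t in 𝓝[>] (0:ℝ), t * K ≤ δ := by
    intro K δ hK hδ
    filter_upwards [Ioo_mem_nhdsGT (show (0:ℝ) < δ / (K + 1) by positivity)] with t ht
    have h3 := ht.2
    rw [lt_div_iff₀ (by positivity)] at h3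
    have h4 : 0 < t := ht.1
    nlinarith
  -- the upper bound of the difference of the heat traces
  have b1 : ∀ ε : ℝ, 0 < ε → ∀ᶠ t in 𝓝[>] (0:ℝ), Z (region p) t - Z (region q) t ≤ ε := by
    intro ε hε
    have hδ : 0 < ε / 2 / Cp := by positivity
    obtain ⟨K, hK, h3⟩ := tail_le (x := fun j => ev (region p) (j + 1))
      (y := fun j => ev (region q) (j + 1)) (w := fun _ => 1) (fun j => (pp j).le)
      (fun _ => zero_le_one) hδ (by
        have := (tendsto_add_atTop_nat 1).eventually (hup _ hδ)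
        filter_upwards [this] with j hj
        rw [mul_one]
        exact hj)
    filter_upwards [self_mem_nhdsWithin, hZp, small K (ε / 2) hK (by positivity)] with t ht h4 h5
    have ht' : (0:ℝ) < t := ht
    have h6 := h3 t ht' (sp t ht') (sq t ht') (by simpa using sp t ht')
    simp only [one_mul] at h6
    refine h6.trans ?_
    have h7 : t * (ε / 2 / Cp * Z (region p) t) ≤ ε / 2 := by
      have : t * (ε / 2 / Cp * Z (region p) t) = ε / 2 / Cp * (t * Z (region p) t) := by ring
      rw [this]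
      calc ε / 2 / Cp * (t * Z (region p) t) ≤ ε / 2 / Cp * Cp :=
            mul_le_mul_of_nonneg_left h4 hδ.le
        _ = ε / 2 := by field_simp
    have h8 : ∑' j, Real.exp (-(t * ev (region p) (j + 1))) = Z (region p) t := rfl
    rw [h8]
    linarith
  -- the lower bound
  have b2 : ∀ ε : ℝ, 0 < ε → ∀ᶠ t in 𝓝[>] (0:ℝ),
      -ε ≤ √t * (Z (region p) t - Z (region q) t) := by
    intro ε hε
    have hδ : 0 < ε / 4 / Cq := by positivity
    obtain ⟨K, hK, h3⟩ := tail_le (x := fun j => ev (region q) (j + 1))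
      (y := fun j => ev (region p) (j + 1)) (w := fun j => √(ev (region q) (j + 1)))
      (fun j => (pq j).le) (fun _ => Real.sqrt_nonneg _) hδ
      ((tendsto_add_atTop_nat 1).eventually (hlo _ hδ))
    have h9 : ∀ᶠ t in 𝓝[>] (0:ℝ), t < 1 := by
      filter_upwards [Ioo_mem_nhdsGT (show (0:ℝ) < 1 by norm_num)] with t ht using ht.2
    filter_upwards [self_mem_nhdsWithin, hZq2, small K (ε / 2) hK (by positivity), h9]
      with t ht h4 h5 h10
    have ht' : (0:ℝ) < t := ht
    have hst : 0 < √t := Real.sqrt_pos.2 ht'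
    have hst1 : √t ≤ 1 := by
      rw [← Real.sqrt_one]
      exact Real.sqrt_le_sqrt h10.le
    have sw : Summable (fun j => √(ev (region q) (j + 1)) *
        Real.exp (-(t * ev (region q) (j + 1)))) := by
      refine Summable.of_nonneg_of_le (fun j => by positivity) (fun j => ?_)
        ((sq (t / 2) (by positivity)).mul_left (1 / √t))
      have := sqrt_mul_exp_le (pq j).le ht'
      rw [one_div, inv_mul_eq_div, le_div_iff₀ hst]
      linarith
    have h6 := h3 t ht' (sq t ht') (sp t ht') sw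
    have h7 : √t * ∑' j, √(ev (region q) (j + 1)) * Real.exp (-(t * ev (region q) (j + 1))) ≤
        Z (region q) (t / 2) := by
      rw [← tsum_mul_left]
      exact (sw.mul_left √t).tsum_le_tsum (fun j => sqrt_mul_exp_le (pq j).le ht')
        (sq (t / 2) (by positivity))
    set W := ∑' j, √(ev (region q) (j + 1)) * Real.exp (-(t * ev (region q) (j + 1)))
    have h8 : Z (region q) t - Z (region p) t ≤ t * (ε / 4 / Cq * W) + t * K := h6
    have h11 : √t * (t * (ε / 4 / Cq * W)) ≤ ε / 2 := by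
      have e1 : √t * (t * (ε / 4 / Cq * W)) = ε / 4 / Cq * (t * (√t * W)) := by ring
      rw [e1]
      have e2 : t * (√t * W) ≤ 2 * Cq := by
        have := mul_le_mul_of_nonneg_left h7 ht'.le
        linarith
      calc ε / 4 / Cq * (t * (√t * W)) ≤ ε / 4 / Cq * (2 * Cq) :=
            mul_le_mul_of_nonneg_left e2 hδ.le
        _ = ε / 2 := by field_simp; ring
    have h12 : √t * (t * K) ≤ ε / 2 := by
      have h13 : 0 ≤ t * K := by positivity
      nlinarith
    have h14 := mul_le_mul_of_nonneg_left h8 hst.le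
    rw [mul_add] at h14
    have h15 : √t * (Z (region p) t - Z (region q) t) =
      -(√t * (Z (region q) t - Z (region p) t)) := by ring
    rw [h15]
    linarith
  have e1 := h_HE n p hp
  have e2 := h_HE m q hq
  have e3 : Tendsto (fun t : ℝ => (Z (region p) t - Z (region q) t) -
      (area (region p) - area (region q)) / (4 * π * t) + (per p - per q) / (8 * √(π * t)))
      (𝓝[>] 0) (𝓝 (∑ j, (π ^ 2 - ang p j ^ 2) / (24 * π * ang p j) -
        ∑ j, (π ^ 2 - ang q j ^ 2) / (24 * π * ang q j))) := by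
    refine (e1.sub e2).congr fun t => ?_
    ring
  obtain ⟨hA, hL, hC⟩ := exp_onesided e3 b1 b2
  refine circ_core n m p hp hc k α h1 h2 q hq (by linarith) (by linarith) ?_
  have key : ∀ (k : ℕ) (r : Fin (k + 3) → ℂ), IsConvexPolygon r →
      ∑ j, (π ^ 2 - ang r j ^ 2) / (24 * π * ang r j) =
      (2 + ∑ j, (π - ang r j) / (π - (π - ang r j))) / 24 := by
    intro k r hr
    obtain ⟨hq1, hq2⟩ := h_AN k r hr
    have : ∀ j, (π ^ 2 - ang r j ^ 2) / (24 * π * ang r j) =
        ((π - ang r j) / π + (π - ang r j) / (π - (π - ang r j))) / 24 := fun j =>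
      corner_eq (hq1 j).1
    simp only [this]
    rw [← Finset.sum_div, Finset.sum_add_distrib, ← Finset.sum_div, hq2]
    congr 2
    field_simp
  rw [key n p hp, key m q hq] at hC
  linarith

end Pool.Agent.R225.HT
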